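import Pool.Agent.H929.BW.Stm

/-! # BW: the recursion for independence, `S_RECS` from `S_NODS`, `S_PIECES`, `S_MONOS` -/

set_option autoImplicit false

namespace Pool.Agent.H872.BW

open Finset Pool.Agent.TH3.IR Pool.Agent.Y55.Col Pool.Agent.H929.BW

/-- `k` points of the same multiplicity -/
theorem piece (h1 : S_NODS) {n k M : ℕ} {H : ℝ} (hM : ((M : ℝ) + 2 * (n + 1)) ≤ H / 2)
    (ha : 5 / 2 ≤ (k : ℝ) * (((M : ℝ) + 2 * (n + 1)) / H) ^ (n + 1)) :
    GS n (fun _ : Fin k => M) ((k : ℝ) * (((M : ℝ) + 2 * (n + 1)) / H) ^ (n + 1)) H := by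
  have hpos : 0 < (M : ℝ) + 2 * (n + 1) := by positivity
  have hH : 0 < H := by linarith
  apply h1 (Fin k) n _ _ H (H / ((M : ℝ) + 2 * (n + 1)))
  · rw [le_div_iff₀ hpos]
    linarith
  · exact ha
  · have e1 : (H / ((M : ℝ) + 2 * (n + 1))) ^ (n + 1) *
        ((k : ℝ) * (((M : ℝ) + 2 * (n + 1)) / H) ^ (n + 1)) = k := by
      have e : H / ((M : ℝ) + 2 * (n + 1)) * (((M : ℝ) + 2 * (n + 1)) / H) = 1 := by
        field_simp
      calc (H / ((M : ℝ) + 2 * (n + 1))) ^ (n + 1) *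
          ((k : ℝ) * (((M : ℝ) + 2 * (n + 1)) / H) ^ (n + 1))
          = k * (H / ((M : ℝ) + 2 * (n + 1)) * (((M : ℝ) + 2 * (n + 1)) / H)) ^ (n + 1) := by
            rw [mul_pow]; ring
        _ = k := by rw [e, one_pow, mul_one]
    have e2 : H / (H / ((M : ℝ) + 2 * (n + 1))) - 2 * (n + 1) = M := by
      rw [div_div_cancel₀ hH.ne']
      ring
    rw [e1, e2]
    intro L R μ ν hμ hν hW hs
    refine SurS_final hμ hν (fun i => ?_) ?_
    · rw [hs, Fintype.card_fin]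
    · rw [Fintype.card_fin]
      exact hW

/-- difference of powers -/
theorem pow_sub_le {x y : ℝ} (hy : 0 ≤ y) (hxy : y ≤ x) (n : ℕ) :
    x ^ (n + 1) - y ^ (n + 1) ≤ (n + 1) * x ^ n * (x - y) := by
  have hx : 0 ≤ x := hy.trans hxy
  induction n with
  | zero => simp
  | succ n ih =>
    have h1 : x ^ (n + 1 + 1) - y ^ (n + 1 + 1) =
        x * (x ^ (n + 1) - y ^ (n + 1)) + y ^ (n + 1) * (x - y) := by ring
    have h2 : x * (x ^ (n + 1) - y ^ (n + 1)) ≤ x * ((n + 1) * x ^ n * (x - y)) :=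
      mul_le_mul_of_nonneg_left ih hx
    have h3 : y ^ (n + 1) * (x - y) ≤ x ^ (n + 1) * (x - y) :=
      mul_le_mul_of_nonneg_right (pow_le_pow_left₀ hy hxy _) (by linarith)
    rw [h1]
    push_cast
    calc x * (x ^ (n + 1) - y ^ (n + 1)) + y ^ (n + 1) * (x - y)
        ≤ x * ((n + 1) * x ^ n * (x - y)) + x ^ (n + 1) * (x - y) := add_le_add h2 h3
      _ = (n + 1 + 1) * x ^ (n + 1) * (x - y) := by ring

/-- the floor of a quotient -/
theorem floor_bounds {x q : ℝ} (hx : 0 ≤ x) (hq : 0 < q) :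
    (⌊x / q⌋₊ : ℝ) * q ≤ x ∧ x - q < (⌊x / q⌋₊ : ℝ) * q := by
  constructor
  · have := Nat.floor_le (div_nonneg hx hq.le)
    rwa [le_div_iff₀ hq] at this
  · have := Nat.lt_floor_add_one (x / q)
    rw [div_lt_iff₀ hq] at this
    linarith

theorem rec_aux (h1 : S_NODS) (h2 : S_PIECES) (h3 : S_MONOS) (n m : ℕ) (g Λ T : ℝ) (hn : 1 ≤ n)
    (hm : 1 ≤ m) (hg : (m : ℝ) ≤ g) (hg' : g ≤ m + 2 * (n + 1)) (hΛ : 1 ≤ Λ)
    (hcl : ClS n m g Λ T) (j : ℕ) : ∀ (β H : ℝ) (r : ℕ), 21 / 4 ≤ β →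
    β ≤ 3 ^ (n + 2) → 2 * (m + 2 * (n + 1)) ≤ H → H ≤ 3 * g * T →
    H ≤ 2 ^ j * (12 * (g + Λ + 2 * (n + 1))) →
    r * g ^ (n + 1) + AS n Λ * H ^ n + FS n m g Λ ≤ β * H ^ (n + 1) →
    ∃ (ι : Type) (_ : Fintype ι) (w s : ι → ℕ), GS n w β H ∧
      (∀ i, Ind n (w i) (Multiset.replicate (s i) m)) ∧ r ≤ ∑ i, s i := by
  have hn1 : (1 : ℝ) ≤ n := by exact_mod_cast hn
  have hm1 : (1 : ℝ) ≤ m := by exact_mod_cast hm
  have hg0 : 0 < g := by linarith
  have hu1 : (g / (m + 2 * (n + 1))) ^ (n + 1) ≤ 1 := by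
    apply pow_le_one₀ (by positivity)
    rw [div_le_one (by positivity)]
    exact hg'
  have hAS : 0 ≤ AS n Λ := by unfold AS; positivity
  have hhalf : ∀ x : ℝ, 0 ≤ x → x ≤ 1 / 2 → x ^ (n + 1) ≤ 1 / 4 := by
    intro x hx0 hx
    calc x ^ (n + 1) ≤ x ^ 2 := pow_le_pow_of_le_one hx0 (by linarith) (by omega)
      _ ≤ (1 / 2) ^ 2 := pow_le_pow_left₀ hx0 hx 2
      _ = 1 / 4 := by norm_num
  induction j with
  | zero =>
    intro β H r hβ hβB hH _ hH0 hin
    rw [pow_zero, one_mul] at hH0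
    have hHpos : 0 < H := by linarith
    have hmk : (0 : ℝ) < (m : ℝ) + 2 * (n + 1) := by positivity
    set q : ℝ := (((m : ℝ) + 2 * (n + 1)) / H) ^ (n + 1) with hq
    have hq0 : 0 < q := by positivity
    have hq4 : q ≤ 1 / 4 := by
      apply hhalf _ (by positivity)
      rw [div_le_iff₀ hHpos]
      linarith
    obtain ⟨hk1, hk2⟩ := floor_bounds (x := β) (by linarith) hq0
    set k := ⌊β / q⌋₊ with hk
    have ha : 5 / 2 ≤ (k : ℝ) * q := by linarith
    have hr : r ≤ k := by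
      rw [hk]
      apply Nat.le_floor
      rw [le_div_iff₀ hq0]
      have hF : β * H ^ (n + 1) * (1 - (g / (m + 2 * (n + 1))) ^ (n + 1)) ≤ FS n m g Λ := by
        unfold FS
        apply mul_le_mul_of_nonneg_right _ (by linarith)
        apply mul_le_mul hβB (pow_le_pow_left₀ hHpos.le hH0 _) (by positivity) (by positivity)
      have hAH : 0 ≤ AS n Λ * H ^ n := by positivity
      have h5 : r * g ^ (n + 1) ≤ β * H ^ (n + 1) * (g / (m + 2 * (n + 1))) ^ (n + 1) := by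
        have : β * H ^ (n + 1) * (1 - (g / (m + 2 * (n + 1))) ^ (n + 1)) =
          β * H ^ (n + 1) - β * H ^ (n + 1) * (g / (m + 2 * (n + 1))) ^ (n + 1) := by ring
        linarith
      rw [div_pow, mul_div_assoc', le_div_iff₀ (by positivity)] at h5
      rw [hq, div_pow, mul_div_assoc', div_le_iff₀ (by positivity)]
      have hgN : 0 < g ^ (n + 1) := by positivity
      have h6 : (r * ((m : ℝ) + 2 * (n + 1)) ^ (n + 1)) * g ^ (n + 1) ≤
          (β * H ^ (n + 1)) * g ^ (n + 1) := by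
        calc (r * ((m : ℝ) + 2 * (n + 1)) ^ (n + 1)) * g ^ (n + 1)
            = r * g ^ (n + 1) * ((m : ℝ) + 2 * (n + 1)) ^ (n + 1) := by ring
          _ ≤ _ := h5
      exact le_of_mul_le_mul_right h6 hgN
    refine ⟨Fin k, inferInstance, fun _ => m, fun _ => 1, ?_, ?_, ?_⟩
    · apply h3 (Fin k) n _ ((k : ℝ) * q) β H (by linarith) hk1 hHpos.le
      exact piece h1 (by linarith) ha
    · intro i
      rw [Multiset.replicate_one]
      exact ind_one le_rfl
    · rw [Finset.sum_const, Finset.card_univ, Fintype.card_fin, smul_eq_mul, mul_one]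
      exact hr
  | succ j ih =>
    intro β H r hβ hβB hH hHT hHj hin
    by_cases hH0 : H ≤ 2 ^ j * (12 * (g + Λ + 2 * (n + 1)))
    · exact ih β H r hβ hβB hH hHT hH0 hin
    push Not at hH0
    have hH0' : 12 * (g + Λ + 2 * ((n : ℝ) + 1)) < H := by
      refine lt_of_le_of_lt ?_ hH0
      have : (1 : ℝ) ≤ 2 ^ j := one_le_pow₀ (by norm_num)
      nlinarith
    have hHpos : 0 < H := by linarith
    -- the number `t`
    have h3g : 0 < 3 * g := by linarith
    set t := ⌊H / (3 * g)⌋₊ with ht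
    have ht1 : (t : ℝ) ≤ H / (3 * g) := Nat.floor_le (by positivity)
    have ht2 : H / (3 * g) < t + 1 := Nat.lt_floor_add_one _
    have ht1' : (t : ℝ) * (3 * g) ≤ H := (le_div_iff₀ h3g).1 ht1
    have ht2' : H < (t + 1) * (3 * g) := (div_lt_iff₀ h3g).1 ht2
    have ht0 : 1 ≤ t := by
      by_contra hcon
      have : t = 0 := by omega
      rw [this] at ht2'
      push_cast at ht2'
      linarith
    have htT : (t : ℝ) ≤ T := by
      refine ht1.trans ?_
      rw [div_le_iff₀ h3g]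
      linarith
    obtain ⟨M₀, hM₀, hM₀'⟩ := hcl t ht0 htT
    have htg0 : 0 ≤ (t : ℝ) * g := by positivity
    set M := ⌊(t : ℝ) * g + Λ⌋₊ with hM
    have hMM : M₀ ≤ M := Nat.le_floor hM₀'
    have hIM : Ind n M (Multiset.replicate (t ^ (n + 1)) m) := hM₀.degree hMM
    have hM1 : (M : ℝ) ≤ t * g + Λ := Nat.floor_le (by linarith)
    have hM2 : (t : ℝ) * g + Λ < M + 1 := Nat.lt_floor_add_one _
    have hx0 : (t : ℝ) * g ≤ (M : ℝ) + 2 * (n + 1) := by linarith
    have hx1 : (M : ℝ) + 2 * (n + 1) ≤ H / 2 := by linarith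
    have hx2 : H / 4 ≤ (t : ℝ) * g := by linarith
    have hMk : (0 : ℝ) < (M : ℝ) + 2 * (n + 1) := by positivity
    set q : ℝ := (((M : ℝ) + 2 * (n + 1)) / H) ^ (n + 1) with hq
    have hq0 : 0 < q := by positivity
    have hq4 : q ≤ 1 / 4 := by
      apply hhalf _ (by positivity)
      rw [div_le_iff₀ hHpos]
      linarith
    have hqlow : (1 / 4) ^ (n + 1) ≤ q := by
      apply pow_le_pow_left₀ (by norm_num)
      rw [le_div_iff₀ hHpos]
      linarith
    obtain ⟨hk1, hk2⟩ := floor_bounds (x := β - 5 / 2) (by linarith) hq0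
    set k := ⌊(β - 5 / 2) / q⌋₊ with hk
    have ha : 5 / 2 ≤ (k : ℝ) * q := by linarith
    have hpiece : GS n (fun _ : Fin k => M) ((k : ℝ) * q) H := piece h1 hx1 ha
    by_cases hrk : r ≤ k * t ^ (n + 1)
    · refine ⟨Fin k, inferInstance, fun _ => M, fun _ => t ^ (n + 1), ?_, fun _ => hIM, ?_⟩
      · exact h3 (Fin k) n _ ((k : ℝ) * q) β H (by linarith) (by linarith) hHpos.le hpiece
      · rw [Finset.sum_const, Finset.card_univ, Fintype.card_fin, smul_eq_mul]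
        exact hrk
    push Not at hrk
    obtain ⟨r'', hr''⟩ := Nat.exists_eq_add_of_le hrk.le
    set b := β - (k : ℝ) * q with hb
    have hb1 : 5 / 2 ≤ b := by linarith
    have hb2 : b ≤ 11 / 4 := by linarith
    set H'' := (H - 1) / 2 - 2 * ((n : ℝ) + 1) with hH''
    have hβ1 : 21 / 4 ≤ 2 ^ (n + 1) * b := by
      have : (2 : ℝ) ^ 2 ≤ 2 ^ (n + 1) := pow_le_pow_right₀ (by norm_num) (by omega)
      nlinarith
    have hβ2 : 2 ^ (n + 1) * b ≤ 3 ^ (n + 2) := by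
      have e1 : (2 : ℝ) ^ (n + 1) ≤ 3 ^ (n + 1) := pow_le_pow_left₀ (by norm_num) (by norm_num) _
      calc 2 ^ (n + 1) * b ≤ 3 ^ (n + 1) * 3 :=
            mul_le_mul e1 (by linarith) (by linarith) (by positivity)
        _ = 3 ^ (n + 2) := by ring
    have hH''1 : 2 * ((m : ℝ) + 2 * (n + 1)) ≤ H'' := by
      rw [hH'']
      linarith
    have hH''2 : H'' ≤ H / 2 := by
      rw [hH'']
      linarith
    have hH''3 : H'' ≤ 3 * g * T := by linarith
    have hH''4 : H'' ≤ 2 ^ j * (12 * (g + Λ + 2 * (n + 1))) := by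
      rw [pow_succ] at hHj
      linarith
    have hH''0 : 0 ≤ H'' := by linarith
    have hin'' : (r'' : ℝ) * g ^ (n + 1) + AS n Λ * H'' ^ n + FS n m g Λ ≤
        2 ^ (n + 1) * b * H'' ^ (n + 1) := by
      -- Bernoulli
      have e1 : 2 ^ (n + 1) * b * H'' ^ (n + 1) = b * (H - 1 - 4 * ((n : ℝ) + 1)) ^ (n + 1) := by
        have : H - 1 - 4 * ((n : ℝ) + 1) = 2 * H'' := by rw [hH'']; ring
        rw [this, mul_pow]
        ring
      have e2 := pow_sub_le (x := H) (y := H - 1 - 4 * ((n : ℝ) + 1)) (by linarith)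
        (by linarith) n
      have e3 : H - (H - 1 - 4 * ((n : ℝ) + 1)) = 4 * n + 5 := by ring
      rw [e3] at e2
      -- the main term
      have e4 : (k : ℝ) * q * H ^ (n + 1) = k * ((M : ℝ) + 2 * (n + 1)) ^ (n + 1) := by
        rw [hq, div_pow]
        field_simp
      have e5 := pow_sub_le (x := (M : ℝ) + 2 * (n + 1)) (y := (t : ℝ) * g) htg0 hx0 n
      have e6 : (M : ℝ) + 2 * (n + 1) - t * g ≤ Λ + 2 * (n + 1) := by linarith
      have e7 : ((M : ℝ) + 2 * (n + 1)) ^ n ≤ (H / 2) ^ n := pow_le_pow_left₀ hMk.le hx1 n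
      have e8 : (H / 2) ^ n ≤ H ^ n / 2 := by
        rw [div_pow]
        apply div_le_div_of_nonneg_left (by positivity) (by norm_num)
        calc (2 : ℝ) = 2 ^ 1 := by norm_num
          _ ≤ 2 ^ n := pow_le_pow_right₀ (by norm_num) hn
      have e9 : H'' ^ n ≤ H ^ n / 2 := (pow_le_pow_left₀ hH''0 hH''2 n).trans e8
      have e10 : ((M : ℝ) + 2 * (n + 1)) ^ (n + 1) - ((t : ℝ) * g) ^ (n + 1) ≤
          (n + 1) * (H ^ n / 2) * (Λ + 2 * (n + 1)) := by
        refine e5.trans ?_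
        apply mul_le_mul _ e6 (by linarith) (by positivity)
        exact mul_le_mul_of_nonneg_left (e7.trans e8) (by positivity)
      have hk4 : (k : ℝ) ≤ 4 ^ (n + 1) * 3 ^ (n + 2) := by
        have f1 : (k : ℝ) * (1 / 4) ^ (n + 1) ≤ β - 5 / 2 :=
          (mul_le_mul_of_nonneg_left hqlow (by positivity)).trans hk1
        have f2 : (k : ℝ) = 4 ^ (n + 1) * ((k : ℝ) * (1 / 4) ^ (n + 1)) := by
          rw [one_div, inv_pow]
          field_simp
        rw [f2]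
        exact mul_le_mul_of_nonneg_left (by linarith) (by positivity)
      have e11 : (k : ℝ) * (((M : ℝ) + 2 * (n + 1)) ^ (n + 1) - ((t : ℝ) * g) ^ (n + 1)) ≤
          4 ^ (n + 1) * 3 ^ (n + 2) * ((n + 1) * (H ^ n / 2) * (Λ + 2 * (n + 1))) := by
        calc (k : ℝ) * (((M : ℝ) + 2 * (n + 1)) ^ (n + 1) - ((t : ℝ) * g) ^ (n + 1))
            ≤ k * ((n + 1) * (H ^ n / 2) * (Λ + 2 * (n + 1))) :=
              mul_le_mul_of_nonneg_left e10 (by positivity)
          _ ≤ _ := mul_le_mul_of_nonneg_right hk4 (by positivity)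
      have e12 : b * (H ^ (n + 1) - (H - 1 - 4 * ((n : ℝ) + 1)) ^ (n + 1)) ≤
          11 / 4 * ((n + 1) * H ^ n * (4 * n + 5)) :=
        mul_le_mul hb2 e2 (by
          have := pow_le_pow_left₀ (show 0 ≤ H - 1 - 4 * ((n : ℝ) + 1) by linarith)
            (show H - 1 - 4 * ((n : ℝ) + 1) ≤ H by linarith) (n + 1)
          linarith) (by norm_num)
      have e13 : 11 / 4 * (((n : ℝ) + 1) * H ^ n * (4 * n + 5)) ≤
          3 / 2 * (4 ^ (n + 1) * 3 ^ (n + 2) * ((n + 1) * H ^ n * (Λ + 2 * (n + 1)))) := by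
        have g1 : (1 : ℝ) ≤ 4 ^ (n + 1) := one_le_pow₀ (by norm_num)
        have g2 : (27 : ℝ) ≤ 3 ^ (n + 2) := by
          calc (27 : ℝ) = 3 ^ 3 := by norm_num
            _ ≤ 3 ^ (n + 2) := pow_le_pow_right₀ (by norm_num) (by omega)
        have g3 : (27 : ℝ) ≤ 4 ^ (n + 1) * 3 ^ (n + 2) := by nlinarith
        have g4 : 0 ≤ ((n : ℝ) + 1) * H ^ n := by positivity
        have g5 : (4 * (n : ℝ) + 5) ≤ 4 * (Λ + 2 * (n + 1)) := by linarith
        calc 11 / 4 * (((n : ℝ) + 1) * H ^ n * (4 * n + 5))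
            ≤ 11 / 4 * (((n : ℝ) + 1) * H ^ n * (4 * (Λ + 2 * (n + 1)))) := by gcongr
          _ = 11 * (((n : ℝ) + 1) * H ^ n * (Λ + 2 * (n + 1))) := by ring
          _ ≤ 3 / 2 * 27 * (((n : ℝ) + 1) * H ^ n * (Λ + 2 * (n + 1))) := by
              apply mul_le_mul_of_nonneg_right (by norm_num) (by positivity)
          _ ≤ 3 / 2 * (4 ^ (n + 1) * 3 ^ (n + 2)) * (((n : ℝ) + 1) * H ^ n * (Λ + 2 * (n + 1))) := by
              apply mul_le_mul_of_nonneg_right _ (by positivity)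
              linarith
          _ = _ := by ring
      have hASe : AS n Λ * H ^ n = 4 * (4 ^ (n + 1) * 3 ^ (n + 2) *
          ((n + 1) * H ^ n * (Λ + 2 * (n + 1)))) := by
        unfold AS
        ring
      have e14 : AS n Λ * H'' ^ n ≤ 2 * (4 ^ (n + 1) * 3 ^ (n + 2) *
          ((n + 1) * H ^ n * (Λ + 2 * (n + 1)))) := by
        have := mul_le_mul_of_nonneg_left e9 hAS
        linarith
      have e15 : (r : ℝ) * g ^ (n + 1) = k * ((t : ℝ) * g) ^ (n + 1) + r'' * g ^ (n + 1) := by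
        rw [hr'']
        push_cast
        ring
      rw [e1]
      have e16 : b * (H - 1 - 4 * ((n : ℝ) + 1)) ^ (n + 1) = β * H ^ (n + 1) -
          k * ((M : ℝ) + 2 * (n + 1)) ^ (n + 1) -
          b * (H ^ (n + 1) - (H - 1 - 4 * ((n : ℝ) + 1)) ^ (n + 1)) := by
        rw [← e4, hb]
        ring
      rw [e16]
      have e17 : 4 ^ (n + 1) * 3 ^ (n + 2) * (((n : ℝ) + 1) * (H ^ n / 2) * (Λ + 2 * (n + 1))) =
        1 / 2 * (4 ^ (n + 1) * 3 ^ (n + 2) * ((n + 1) * H ^ n * (Λ + 2 * (n + 1)))) := by ring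
      rw [e17] at e11
      have e18 : (k : ℝ) * (((M : ℝ) + 2 * (n + 1)) ^ (n + 1) - ((t : ℝ) * g) ^ (n + 1)) =
        k * ((M : ℝ) + 2 * (n + 1)) ^ (n + 1) - k * ((t : ℝ) * g) ^ (n + 1) := by ring
      rw [e18] at e11
      linarith
    obtain ⟨ι'', hι'', w'', s'', hw1, hw2, hw3⟩ := ih (2 ^ (n + 1) * b) H'' r'' hβ1 hβ2 hH''1
      hH''3 hH''4 hin''
    have hw4 : GS n w'' b (H - 1) := h1 ι'' n w'' b (H - 1) 2 le_rfl hb1 hw1
    have hw5 := h2 (Fin k) ι'' n (fun _ => M) w'' ((k : ℝ) * q) b H (H - 1) (by linarith)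
      (by linarith) (by linarith) hpiece hw4
    have hab : (k : ℝ) * q + b = β := by rw [hb]; ring
    rw [hab] at hw5
    refine ⟨Fin k ⊕ ι'', inferInstance, Sum.elim (fun _ => M) w'',
      Sum.elim (fun _ => t ^ (n + 1)) s'', hw5, ?_, ?_⟩
    · rintro (i | i)
      · exact hIM
      · exact hw2 i
    · rw [Fintype.sum_sum_type]
      simp only [Sum.elim_inl, Sum.elim_inr, Finset.sum_const, Finset.card_univ, Fintype.card_fin,
        smul_eq_mul]
      omega

theorem t_RECS (h1 : S_NODS) (h2 : S_PIECES) (h3 : S_MONOS) : S_RECS := by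
  intro n m g Λ T hn hm hg hg' hΛ hcl β H r hβ hβB hH hHT hin
  have hg0 : (1 : ℝ) ≤ g := le_trans (by exact_mod_cast hm) hg
  obtain ⟨j, hj⟩ := pow_unbounded_of_one_lt H (show (1 : ℝ) < 2 by norm_num)
  refine rec_aux h1 h2 h3 n m g Λ T hn hm hg hg' hΛ hcl j β H r hβ hβB hH hHT ?_ hin
  refine hj.le.trans (le_mul_of_one_le_right (by positivity) ?_)
  have : (0 : ℝ) ≤ n := Nat.cast_nonneg n
  linarith

end Pool.Agent.H872.BW
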